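import Pool.Agent.Helper35_WH.Stmt2

/-!
# Module COREASM: the theorem on tight words
-/

namespace Pool.Agent.Helper35_WH

open FreeGroup

namespace CA68

/-- the combinatorial data of a spine for one of the two chord systems -/
structure SD (R : Rim) (G A B I : Type) where
  Ch : Chords R
  o : G
  s₁ : A → G
  t₁ : A → G
  l₁ : A → I
  s₂ : B → G
  t₂ : B → G
  vt : R.E → G
  bd : R.E → (A ⊕ B) × Bool
  vσ : ∀ e, vt (R.σ e) = vt e
  bφ : ∀ e, bd (R.φ e) = inv (bd e)
  v1 : ∀ e a b, bd e = (.inl a, b) → vt e = if b then s₁ a else t₁ a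
  v2 : ∀ e a b, bd e = (.inr a, b) → vt e = if b then s₂ a else t₂ a
  c2 : ∀ e a b, bd e = (.inr a, b) → Ch.A e = R.φ e
  c1 : ∀ e a b, bd e = (.inl a, b) →
    Ch.A e ≠ R.φ e ∧ ∃ a', bd (Ch.A e) = (.inl a', b) ∧ l₁ a' = l₁ a
  univ : SpineUniv R Ch o s₁ t₁ l₁ s₂ t₂ vt bd

variable {R : Rim} {G A B I : Type} (D : SD R G A B I)

section lab

variable {M : Type} [Group M]

/-- labels of the horizontal edges -/
def SD.m1 (h : FreeGroup I →* M) (p : G → M) (e : A) : M :=
  (p (D.s₁ e))⁻¹ * h (of (D.l₁ e)) * p (D.t₁ e)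

/-- labels of the vertical edges -/
def SD.m2 (p : G → M) (e : B) : M := (p (D.s₂ e))⁻¹ * p (D.t₂ e)

open Classical in
/-- labels of the chords -/
noncomputable def SD.aa (h : FreeGroup I →* M) (p : G → M) (x : R.E) : M :=
  if D.Ch.A x = R.φ x then bval D.bd (D.m1 h p) (D.m2 p) x else (p (D.vt x))⁻¹ * p (D.vt (D.Ch.A x))

theorem bval_Bd (μ₁ : A → M) (μ₂ : B → M) : R.Bd (bval D.bd μ₁ μ₂) := by
  intro e
  unfold bval
  rw [D.bφ e]
  rcases D.bd e with ⟨x, b⟩
  cases b <;> simp [inv]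

theorem bval_inl (h : FreeGroup I →* M) (p : G → M) (e : R.E) (a : A) (b : Bool)
    (he : D.bd e = (.inl a, b)) : bval D.bd (D.m1 h p) (D.m2 p) e =
      (p (D.vt e))⁻¹ * (if b then h (of (D.l₁ a)) else (h (of (D.l₁ a)))⁻¹) * p (D.vt (R.φ e)) := by
  have h1 := D.v1 e a b he
  have h2 := D.v1 (R.φ e) a (!b) (by rw [D.bφ, he]; rfl)
  unfold bval
  rw [he, h1, h2]
  cases b <;> simp [SD.m1, mul_assoc]

theorem bval_inr (h : FreeGroup I →* M) (p : G → M) (e : R.E) (a : B) (b : Bool)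
    (he : D.bd e = (.inr a, b)) : bval D.bd (D.m1 h p) (D.m2 p) e =
      (p (D.vt e))⁻¹ * p (D.vt (R.φ e)) := by
  have h1 := D.v2 e a b he
  have h2 := D.v2 (R.φ e) a (!b) (by rw [D.bφ, he]; rfl)
  unfold bval
  rw [he, h1, h2]
  cases b <;> simp [SD.m2]

theorem SD.cases (e : R.E) : (∃ a b, D.bd e = (.inl a, b) ∧ D.Ch.A e ≠ R.φ e) ∨
    (∃ a b, D.bd e = (.inr a, b) ∧ D.Ch.A e = R.φ e) := by
  rcases he : D.bd e with ⟨x | x, b⟩
  · exact Or.inl ⟨x, b, rfl, (D.c1 e x b he).1⟩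
  · exact Or.inr ⟨x, b, rfl, D.c2 e x b he⟩

theorem aa_eq (h : FreeGroup I →* M) (p : G → M) (x : R.E) :
    D.aa h p x = (p (D.vt x))⁻¹ * p (D.vt (D.Ch.A x)) := by
  unfold SD.aa
  rcases D.cases x with ⟨a, b, h1, h2⟩ | ⟨a, b, h1, h2⟩
  · rw [if_neg h2]
  · rw [if_pos h2, bval_inr D h p x a b h1, h2]

theorem sol (h : FreeGroup I →* M) (p : G → M) :
    Sol D.Ch (bval D.bd (D.m1 h p) (D.m2 p)) (D.aa h p) := by
  refine ⟨?_, ?_, ?_, fun e => p (D.vt e), ?_, ?_⟩
  · intro e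
    rw [aa_eq, aa_eq, D.Ch.AA]
    simp
  · intro e he
    unfold SD.aa
    rw [if_pos he]
  · intro e he
    rcases D.cases e with ⟨a, b, h1, h2⟩ | ⟨a, b, h1, h2⟩
    · obtain ⟨-, a', h3, h4⟩ := D.c1 e a b h1
      rw [aa_eq, aa_eq, bval_inl D h p e a b h1, bval_inl D h p _ a' b h3, h4, D.Ch.comm]
      group
    · exact absurd h2 he
  · intro e
    dsimp only
    rw [D.vσ]
  · intro e
    rw [aa_eq]
    simp

end lab

/-- the group of the universal labelling -/
abbrev SD.U : Type := FreeGroup (I ⊕ {g : G // g ≠ D.o})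

/-- the universal homomorphism -/
def SD.hU : FreeGroup I →* D.U := FreeGroup.map Sum.inl

open Classical in
/-- the universal gauge -/
noncomputable def SD.pU (g : G) : D.U := if h : g = D.o then 1 else of (Sum.inr ⟨g, h⟩)

/-- the universal labels of horizontal edges -/
noncomputable def SD.U1 (e : A) : D.U := D.m1 D.hU D.pU e

/-- the universal labels of vertical edges -/
noncomputable def SD.U2 (e : B) : D.U := D.m2 D.pU e

/-- the universal labels of chords -/
noncomputable def SD.Ua (x : R.E) : D.U := D.aa D.hU D.pU x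

/-- the universal boundary labels -/
noncomputable def SD.Ub (x : R.E) : D.U := bval D.bd D.U1 D.U2 x

theorem SD.solU : Sol D.Ch D.Ub D.Ua := sol D D.hU D.pU

theorem bval_map {M M' : Type} [Group M] [Group M'] (f : M →* M') (μ₁ : A → M) (μ₂ : B → M)
    (x : R.E) : f (bval D.bd μ₁ μ₂ x) = bval D.bd (fun e => f (μ₁ e)) (fun e => f (μ₂ e)) x := by
  unfold bval
  rcases D.bd x with ⟨y | y, b⟩ <;> cases b <;> simp

theorem SD.exist {M : Type} [Group M] (μ₁ : A → M) (μ₂ : B → M) (a : R.E → M)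
    (ha : Sol D.Ch (bval D.bd μ₁ μ₂) a) : ∃ α : D.U →* M, (∀ e, α (D.U1 e) = μ₁ e) ∧
      (∀ e, α (D.U2 e) = μ₂ e) ∧ ∀ x, α (D.Ua x) = a x := by
  obtain ⟨⟨h, p⟩, ⟨h0, h1, h2, h3⟩, -⟩ := D.univ M μ₁ μ₂ a ha
  dsimp only at h0 h1 h2 h3
  let α : D.U →* M := FreeGroup.lift (Sum.elim (fun i => h (of i)) (fun g => p g.1))
  have e1 : ∀ g, α (D.hU g) = h g := by
    intro g
    have : α.comp D.hU = h := by
      apply FreeGroup.ext_hom
      intro i
      simp [α, SD.hU]
    exact DFunLike.congr_fun this g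
  have e2 : ∀ g, α (D.pU g) = p g := by
    intro g
    unfold SD.pU
    split_ifs with h
    · rw [h, h0, _root_.map_one]
    · simp [α]
  have e3 : ∀ e, α (D.U1 e) = μ₁ e := by
    intro e
    unfold SD.U1 SD.m1
    rw [_root_.map_mul, _root_.map_mul, _root_.map_inv, e1, e2, e2, h1]
  have e4 : ∀ e, α (D.U2 e) = μ₂ e := by
    intro e
    unfold SD.U2 SD.m2
    rw [_root_.map_mul, _root_.map_inv, e2, e2, h2]
  refine ⟨α, e3, e4, ?_⟩
  intro x
  rcases D.cases x with ⟨a', b, h4, h5⟩ | ⟨a', b, h4, h5⟩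
  · unfold SD.Ua
    rw [aa_eq, _root_.map_mul, _root_.map_inv, e2, e2, h3 x h5]
  · rw [ha.2.1 x h5]
    have : D.Ua x = D.Ub x := D.solU.2.1 x h5
    rw [this]
    unfold SD.Ub
    rw [bval_map]
    simp only [e3, e4]

theorem SD.unique {M : Type} [Group M] (α α' : D.U →* M) (h1 : ∀ e, α (D.U1 e) = α' (D.U1 e))
    (h2 : ∀ e, α (D.U2 e) = α' (D.U2 e)) (h3 : ∀ x, α (D.Ua x) = α' (D.Ua x)) : α = α' := by
  have key : ∀ α : D.U →* M, (α (D.pU D.o) = 1) ∧
      (∀ e, α (D.U1 e) = (α (D.pU (D.s₁ e)))⁻¹ * (α.comp D.hU) (of (D.l₁ e)) *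
        α (D.pU (D.t₁ e))) ∧
      (∀ e, α (D.U2 e) = (α (D.pU (D.s₂ e)))⁻¹ * α (D.pU (D.t₂ e))) ∧
      ∀ e, D.Ch.A e ≠ R.φ e → α (D.Ua e) = (α (D.pU (D.vt e)))⁻¹ * α (D.pU (D.vt (D.Ch.A e))) := by
    intro α
    refine ⟨?_, ?_, ?_, ?_⟩
    · simp [SD.pU]
    · intro e
      simp [SD.U1, SD.m1]
    · intro e
      simp [SD.U2, SD.m2]
    · intro e _
      unfold SD.Ua
      rw [aa_eq]
      simp
  have hsol : Sol D.Ch (bval D.bd (fun e => α (D.U1 e)) (fun e => α (D.U2 e)))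
      (fun x => α (D.Ua x)) := by
    have h4 := sol D (α.comp D.hU) (fun g => α (D.pU g))
    have e1 : D.m1 (α.comp D.hU) (fun g => α (D.pU g)) = fun e => α (D.U1 e) := by
      funext e; rw [(key α).2.1 e]; rfl
    have e2 : D.m2 (fun g => α (D.pU g)) = fun e => α (D.U2 e) := by
      funext e; rw [(key α).2.2.1 e]; rfl
    have e3 : D.aa (α.comp D.hU) (fun g => α (D.pU g)) = fun x => α (D.Ua x) := by
      funext x
      unfold SD.Ua
      rw [aa_eq, aa_eq]
      simp
    rwa [e1, e2, e3] at h4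
  have hu := (D.univ M _ _ _ hsol).unique (y₁ := (α.comp D.hU, fun g => α (D.pU g)))
    (y₂ := (α'.comp D.hU, fun g => α' (D.pU g))) (key α) ⟨(key α').1, fun e => by
      rw [h1 e]; exact (key α').2.1 e, fun e => by rw [h2 e]; exact (key α').2.2.1 e,
      fun e he => by
        rw [h3 e]; exact (key α').2.2.2 e he⟩
  apply FreeGroup.ext_hom
  rintro (i | g)
  · have := DFunLike.congr_fun (congrArg Prod.fst hu) (of i)
    simpa [SD.hU] using this
  · have := congrFun (congrArg Prod.snd hu) g.1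
    simpa [SD.pU, g.2] using this

/-- products along paths -/
theorem prod_path {V E M : Type} [Group M] (s t : E → V) (H : E → M) (p : V → M) (μ : E → M)
    (hμ : ∀ e, μ e = (p (s e))⁻¹ * H e * p (t e)) (L : List (E × Bool)) (u w : V)
    (h : IsPath s t u L w) : (L.map fun x => if x.2 then μ x.1 else (μ x.1)⁻¹).prod =
      (p u)⁻¹ * (L.map fun x => if x.2 then H x.1 else (H x.1)⁻¹).prod * p w := by
  induction L generalizing u with
  | nil =>
    have h' : u = w := h
    subst h'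
    simp
  | cons x L ih =>
    obtain ⟨e, b⟩ := x
    obtain ⟨h1, h2⟩ := h
    rw [List.map_cons, List.prod_cons, ih _ h2, List.map_cons, List.prod_cons]
    subst h1
    cases b
    · simp only [Bool.false_eq_true, if_false, hμ]
      group
    · simp only [if_true, hμ]
      group

theorem prod_read {E α M : Type} [Group M] (l : E → α) (h : FreeGroup α →* M)
    (L : List (E × Bool)) :
    (L.map fun x => if x.2 then h (of (l x.1)) else (h (of (l x.1)))⁻¹).prod =
      h (mk (readW l L)) := by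
  induction L with
  | nil => simp [readW, FreeGroup.one_eq_mk.symm]
  | cons x L ih =>
    obtain ⟨e, b⟩ := x
    rw [List.map_cons, List.prod_cons, ih]
    have : mk (readW l ((e, b) :: L)) = (if b then of (l e) else (of (l e))⁻¹) * mk (readW l L) := by
      cases b
      · simp [readW, of, FreeGroup.inv_mk, FreeGroup.mul_mk, FreeGroup.invRev]
      · simp [readW, of, FreeGroup.mul_mk]
    rw [this, _root_.map_mul]
    cases b <;> simp

theorem norm_map_inj {α β : Type} [DecidableEq α] [DecidableEq β] (f : α → β)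
    (hf : Function.Injective f) (x : FreeGroup α) : (FreeGroup.map f x).norm = x.norm := by
  have h1 : (FreeGroup.map f x).toWord = x.toWord.map (fun y => (f y.1, y.2)) := by
    conv_lhs => rw [← FreeGroup.mk_toWord (x := x)]
    rw [FreeGroup.map.mk, FreeGroup.toWord_mk]
    apply FreeGroup.IsReduced.reduce_eq
    have h2 : FreeGroup.IsReduced x.toWord := FreeGroup.isReduced_toWord
    unfold FreeGroup.IsReduced at h2 ⊢
    rw [List.isChain_map]
    exact h2.imp fun a b h h' => h (hf h')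
  unfold FreeGroup.norm
  rw [h1, List.length_map]

theorem norm_inv_le {α : Type} [DecidableEq α] (x : FreeGroup α) : (x⁻¹).norm = x.norm :=
  FreeGroup.norm_inv_eq

/-- the norm of a substitution -/
theorem norm_lift_le {α β : Type} [DecidableEq α] [DecidableEq β] (f : α → FreeGroup β) (K : ℕ)
    (hf : ∀ a, (f a).norm ≤ K) (x : FreeGroup α) : (FreeGroup.lift f x).norm ≤ K * x.norm := by
  have key : ∀ L : List (α × Bool), (FreeGroup.lift f (mk L)).norm ≤ K * L.length := by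
    intro L
    induction L with
    | nil => simp [FreeGroup.one_eq_mk.symm]
    | cons y L ih =>
      obtain ⟨a, b⟩ := y
      have h1 : mk ((a, b) :: L) = (if b then of a else (of a)⁻¹) * mk L := by
        cases b
        · simp [of, FreeGroup.inv_mk, FreeGroup.mul_mk, FreeGroup.invRev]
        · simp [of, FreeGroup.mul_mk]
      have h2 : (FreeGroup.lift f (if b then of a else (of a)⁻¹)).norm ≤ K := by
        cases b
        · simp only [Bool.false_eq_true, if_false, _root_.map_inv, FreeGroup.lift_apply_of]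
          rw [norm_inv_le]; exact hf a
        · simpa using hf a
      rw [h1, _root_.map_mul]
      refine (FreeGroup.norm_mul_le _ _).trans ?_
      rw [List.length_cons, Nat.mul_succ]
      omega
  have := key x.toWord
  rwa [FreeGroup.mk_toWord] at this

/-- bounds along a connected graph -/
theorem conn_bound {G : Type} [Fintype G] (ν : G → ℕ) (K : ℕ) (o : G) (ho : ν o = 0)
    (E : G → G → Prop) (hE : ∀ u v, E u v → ν v ≤ ν u + K ∧ ν u ≤ ν v + K)
    (hc : ∀ f : G → Bool, (∀ u v, E u v → f u = f v) → ∀ u v, f u = f v) (g : G) :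
    ν g ≤ Fintype.card G * K := by
  classical
  have key : ∀ k : ℕ, k + 1 ≤ (Finset.univ.filter fun g => ν g ≤ k * K).card ∨
      ∀ g, ν g ≤ k * K := by
    intro k
    induction k with
    | zero =>
      left
      rw [Nat.add_comm, Nat.add_zero]
      exact Finset.card_pos.2 ⟨o, by simp [ho]⟩
    | succ k ih =>
      rcases ih with ih | ih
      · by_cases hall : ∀ g, ν g ≤ (k + 1) * K
        · exact Or.inr hall
        left
        have hsub : (Finset.univ.filter fun g => ν g ≤ k * K) ⊆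
            (Finset.univ.filter fun g => ν g ≤ (k + 1) * K) := by
          intro g hg
          rw [Finset.mem_filter] at hg ⊢
          refine ⟨hg.1, hg.2.trans (Nat.mul_le_mul_right _ (Nat.le_succ k))⟩
        have hne : (Finset.univ.filter fun g => ν g ≤ k * K) ≠
            (Finset.univ.filter fun g => ν g ≤ (k + 1) * K) := by
          intro heq
          apply hall
          have hmem : ∀ g, ν g ≤ (k + 1) * K → ν g ≤ k * K := by
            intro g hg
            have : g ∈ Finset.univ.filter fun g => ν g ≤ k * K := by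
              rw [heq, Finset.mem_filter]
              exact ⟨Finset.mem_univ _, hg⟩
            exact (Finset.mem_filter.1 this).2
          have h1 := hc (fun g => decide (ν g ≤ k * K)) (by
            intro u v huv
            obtain ⟨h2, h3⟩ := hE u v huv
            rw [Bool.eq_iff_iff, decide_eq_true_iff, decide_eq_true_iff]
            constructor
            · intro h4
              exact hmem v (h2.trans (by rw [Nat.succ_mul]; omega))
            · intro h4
              exact hmem u (h3.trans (by rw [Nat.succ_mul]; omega)))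
          intro g
          have h2 := h1 g o
          rw [Bool.eq_iff_iff, decide_eq_true_iff, decide_eq_true_iff] at h2
          have h3 : ν g ≤ k * K := h2.2 (by rw [ho]; exact Nat.zero_le _)
          exact h3.trans (Nat.mul_le_mul_right _ (Nat.le_succ k))
        have := Finset.card_lt_card (Finset.ssubset_iff_subset_ne.2 ⟨hsub, hne⟩)
        omega
      · right
        intro g
        exact (ih g).trans (Nat.mul_le_mul_right _ (Nat.le_succ k))
  rcases key (Fintype.card G) with h | h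
  · exfalso
    have := Finset.card_le_univ (Finset.univ.filter fun g => ν g ≤ Fintype.card G * K)
    omega
  · exact h g

theorem map_lift {α M M' : Type} [Group M] [Group M'] (f : M →* M') (g : α → M)
    (x : FreeGroup α) : f (FreeGroup.lift g x) = FreeGroup.lift (fun a => f (g a)) x := by
  have : f.comp (FreeGroup.lift g) = FreeGroup.lift (fun a => f (g a)) := by
    apply FreeGroup.ext_hom
    intro a
    simp
  exact DFunLike.congr_fun this x

theorem map_prodlist {E M M' : Type} [Group M] [Group M'] (f : M →* M') (μ : E → M)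
    (L : List (E × Bool)) :
    f ((L.map fun x => if x.2 then μ x.1 else (μ x.1)⁻¹).prod) =
      (L.map fun x => if x.2 then f (μ x.1) else (f (μ x.1))⁻¹).prod := by
  induction L with
  | nil => simp
  | cons x L ih =>
    rw [List.map_cons, List.prod_cons, List.map_cons, List.prod_cons, _root_.map_mul, ih]
    congr 1
    split_ifs
    · rfl
    · exact _root_.map_inv f _

theorem prod_ones {E M : Type} [Group M] (L : List (E × Bool)) :
    (L.map fun x => if x.2 then (fun _ : E => (1 : M)) x.1 else ((fun _ : E => (1 : M)) x.1)⁻¹).prod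
      = 1 := by
  induction L with
  | nil => simp
  | cons x L ih =>
    rw [List.map_cons, List.prod_cons, ih]
    split_ifs <;> simp

theorem bval_swap {E A B M : Type} [Group M] (bd : E → (A ⊕ B) × Bool) (μ₁ : A → M) (μ₂ : B → M)
    (e : E) : bval (fun e => ((bd e).1.swap, (bd e).2)) μ₂ μ₁ e = bval bd μ₁ μ₂ e := by
  have key : ∀ y : (A ⊕ B) × Bool, (if (y.1.swap, y.2).2 then Sum.elim μ₂ μ₁ (y.1.swap, y.2).1
      else (Sum.elim μ₂ μ₁ (y.1.swap, y.2).1)⁻¹) =
      if y.2 then Sum.elim μ₁ μ₂ y.1 else (Sum.elim μ₁ μ₂ y.1)⁻¹ := by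
    rintro ⟨x | x, b⟩ <;> rfl
  exact key (bd e)

/-- the data of the vertical chords -/
def dV {n : ℕ} {X Y : List (Lt n)} (S : Spine n X Y) : SD S.R S.G S.A S.B (Fin n) where
  Ch := S.AV
  o := S.o
  s₁ := S.s₁
  t₁ := S.t₁
  l₁ := S.l₁
  s₂ := S.s₂
  t₂ := S.t₂
  vt := S.vt
  bd := S.bd
  vσ := S.vt_σ
  bφ := S.bd_φ
  v1 := S.vt_inl
  v2 := S.vt_inr
  c2 := S.AV_inr
  c1 := S.AV_inl
  univ := S.univV

theorem swap_eq_inl {A B : Type} {x : (A ⊕ B) × Bool} {a : B} {b : Bool}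
    (h : (x.1.swap, x.2) = ((.inl a, b) : (B ⊕ A) × Bool)) : x = (.inr a, b) := by
  rcases x with ⟨y | y, c⟩ <;> simp_all

theorem swap_eq_inr {A B : Type} {x : (A ⊕ B) × Bool} {a : A} {b : Bool}
    (h : (x.1.swap, x.2) = ((.inr a, b) : (B ⊕ A) × Bool)) : x = (.inl a, b) := by
  rcases x with ⟨y | y, c⟩ <;> simp_all

/-- the data of the horizontal chords -/
def dH {n : ℕ} {X Y : List (Lt n)} (S : Spine n X Y) : SD S.R S.G S.B S.A (Fin n) where
  Ch := S.AH
  o := S.o
  s₁ := S.s₂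
  t₁ := S.t₂
  l₁ := S.l₂
  s₂ := S.s₁
  t₂ := S.t₁
  vt := S.vt
  bd := fun e => ((S.bd e).1.swap, (S.bd e).2)
  vσ := S.vt_σ
  bφ := fun e => by
    rw [S.bd_φ]
    rcases S.bd e with ⟨x, b⟩
    rfl
  v1 := fun e a b h => S.vt_inr e a b (swap_eq_inl h)
  v2 := fun e a b h => S.vt_inl e a b (swap_eq_inr h)
  c2 := fun e a b h => S.AH_inl e a b (swap_eq_inr h)
  c1 := fun e a b h => by
    obtain ⟨h1, a', h2, h3⟩ := S.AH_inr e a b (swap_eq_inl h)
    exact ⟨h1, a', by rw [h2]; rfl, h3⟩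
  univ := S.univH

end CA68

open CA68

theorem coreFrom : CoreFromStatement := by
  rintro hSp ⟨C, d, hCh⟩ hFF hTF
  refine ⟨36 * C * 16 ^ d + 38, d + 1, ?_⟩
  intro n X Y hX hY aX aY tX tY ψ hψ
  by_cases hX0 : X = []
  · subst hX0
    refine ⟨ψ, hψ, fun i => ?_⟩
    obtain ⟨b, hb⟩ := aX i
    simp at hb
  obtain ⟨S⟩ := hSp n X Y ψ hψ hX0 hX hY aX aY tX tY
  classical
  obtain ⟨w, w', hw, -, hww⟩ := hCh S.R S.AV S.AH S.invIff S.eqvP
  obtain ⟨DV, hDV⟩ : ∃ DV, DV = dV S := ⟨_, rfl⟩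
  obtain ⟨DH, hDH⟩ : ∃ DH, DH = dH S := ⟨_, rfl⟩
  have ubH : DH.Ub = bval S.bd DH.U2 DH.U1 := by
    subst hDH
    funext x
    exact bval_swap S.bd _ _ x
  have ubV : DV.Ub = bval DH.bd DV.U2 DV.U1 := by
    subst hDH hDV
    funext x
    exact (bval_swap S.bd _ _ x).symm
  have chV : DV.Ch = S.AV := by rw [hDV]; rfl
  have chH : DH.Ch = S.AH := by rw [hDH]; rfl
  have bdV : DV.bd = S.bd := by rw [hDV]; rfl
  -- first homomorphism
  obtain ⟨c1, c2⟩ := (hww DH.U DH.Ub (bval_Bd DH _ _)).1 DH.Ua (by rw [← chH]; exact DH.solU)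
  obtain ⟨a₁, ha₁⟩ : ∃ a₁ : S.R.E → DH.U, a₁ = fun e =>
    FreeGroup.lift (Sum.elim DH.Ua DH.Ub) (w e) := ⟨_, rfl⟩
  rw [← ha₁] at c1 c2
  obtain ⟨α, hα1, hα2, hα3⟩ := DV.exist DH.U2 DH.U1 a₁ (by rw [chV, bdV, ← ubH]; exact c1)
  -- second homomorphism
  obtain ⟨c3, c4⟩ := (hww DV.U DV.Ub (bval_Bd DV _ _)).2 DV.Ua (by rw [← chV]; exact DV.solU)
  obtain ⟨a₂, ha₂⟩ : ∃ a₂ : S.R.E → DV.U, a₂ = fun e =>
    FreeGroup.lift (Sum.elim DV.Ua DV.Ub) (w' e) := ⟨_, rfl⟩
  rw [← ha₂] at c3 c4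
  obtain ⟨β, hβ1, hβ2, hβ3⟩ := DH.exist DV.U2 DV.U1 a₂ (by rw [chH, ← ubV]; exact c3)
  have hαb : ∀ x, α (DV.Ub x) = DH.Ub x := by
    intro x
    unfold SD.Ub
    rw [bval_map]
    simp only [hα1, hα2]
    rw [bdV]
    have := congrFun ubH x
    exact this.symm
  have hβb : ∀ x, β (DH.Ub x) = DV.Ub x := by
    intro x
    have h1 := congrFun ubV x
    rw [h1]
    unfold SD.Ub
    rw [bval_map]
    simp only [hβ1, hβ2]
  have comp1 : α.comp β = MonoidHom.id DH.U := by
    apply DH.unique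
    · intro e; rw [MonoidHom.comp_apply, hβ1, hα2]; rfl
    · intro e; rw [MonoidHom.comp_apply, hβ2, hα1]; rfl
    · intro x
      rw [MonoidHom.comp_apply, hβ3, ha₂]
      dsimp only
      rw [map_lift]
      have : (fun y => α (Sum.elim DV.Ua DV.Ub y)) = Sum.elim a₁ DH.Ub := by
        funext y
        rcases y with y | y
        · exact hα3 y
        · exact hαb y
      rw [this, c2 x]
      rfl
  have comp2 : β.comp α = MonoidHom.id DV.U := by
    apply DV.unique
    · intro e; rw [MonoidHom.comp_apply, hα1, hβ2]; rfl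
    · intro e; rw [MonoidHom.comp_apply, hα2, hβ1]; rfl
    · intro x
      rw [MonoidHom.comp_apply, hα3, ha₁]
      dsimp only
      rw [map_lift]
      have : (fun y => β (Sum.elim DH.Ua DH.Ub y)) = Sum.elim a₂ DV.Ub := by
        funext y
        rcases y with y | y
        · exact hβ3 y
        · exact hβb y
      rw [this, c4 x]
      rfl
  obtain ⟨Ψ, hΨ⟩ : ∃ Ψ : DV.U ≃* DH.U, ∀ x, Ψ x = α x :=
    ⟨MonoidHom.toMulEquiv α β comp2 comp1, fun _ => rfl⟩
  have pV0 : DV.pU S.o = 1 := by rw [hDV]; simp [SD.pU, dV]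
  have pH0 : DH.pU S.o = 1 := by rw [hDH]; simp [SD.pU, dH]
  -- the image of X
  have him : Ψ (DV.hU (mk X)) = DH.hU (mk Y) := by
    have e1 : (S.hp.map fun x => if x.2 then DV.U1 x.1 else (DV.U1 x.1)⁻¹).prod =
        (DV.pU S.o)⁻¹ * DV.hU (mk X) * DV.pU S.o' := by
      rw [prod_path S.s₁ S.t₁ (fun e => DV.hU (of (S.l₁ e))) DV.pU DV.U1 (by
        intro e; rw [hDV]; rfl) S.hp S.o S.o' S.hp_path, prod_read, S.hp_read]
    have e2 : (S.hp.map fun x => if x.2 then DH.U2 x.1 else (DH.U2 x.1)⁻¹).prod =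
        (DH.pU S.o)⁻¹ * 1 * DH.pU S.o' := by
      rw [prod_path S.s₁ S.t₁ (fun _ => (1 : DH.U)) DH.pU DH.U2 (by
        intro e; rw [hDH, mul_one]; rfl) S.hp S.o S.o' S.hp_path, prod_ones]
    have e3 : (S.vp.map fun x => if x.2 then DH.U1 x.1 else (DH.U1 x.1)⁻¹).prod =
        (DH.pU S.o')⁻¹ * DH.hU (mk Y) * DH.pU S.o := by
      rw [prod_path S.s₂ S.t₂ (fun e => DH.hU (of (S.l₂ e))) DH.pU DH.U1 (by
        intro e; rw [hDH]; rfl) S.vp S.o' S.o S.vp_path, prod_read, S.vp_read]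
    have e4 : (S.vp.map fun x => if x.2 then DV.U2 x.1 else (DV.U2 x.1)⁻¹).prod =
        (DV.pU S.o')⁻¹ * 1 * DV.pU S.o := by
      rw [prod_path S.s₂ S.t₂ (fun _ => (1 : DV.U)) DV.pU DV.U2 (by
        intro e; rw [hDV, mul_one]; rfl) S.vp S.o' S.o S.vp_path, prod_ones]
    have e5 := congrArg α e1
    rw [map_prodlist] at e5
    simp only [hα1] at e5
    rw [e2, pV0, pH0] at e5
    have e6 := congrArg α e4
    rw [map_prodlist] at e6
    simp only [hα2] at e6
    rw [e3, pV0, pH0] at e6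
    rw [hΨ]
    simp only [inv_one, one_mul, mul_one, _root_.map_mul, _root_.map_inv] at e5 e6
    have e7 : α (DV.hU (mk X)) = DH.pU S.o' * (α (DV.pU S.o'))⁻¹ := by rw [e5]; group
    rw [e7, ← e6]
    group
  have injU : ∀ {β : Type} (x y : FG n), FreeGroup.map (Sum.inl : Fin n → Fin n ⊕ β) x =
      FreeGroup.map Sum.inl y → x = y := by
    intro β x y h
    have h1 : (FreeGroup.map (Sum.inl : Fin n → Fin n ⊕ β) (x * y⁻¹)).norm = 0 := by
      rw [_root_.map_mul, _root_.map_inv, h, mul_inv_cancel, FreeGroup.norm_one]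
    rw [norm_map_inj _ Sum.inl_injective, FreeGroup.norm_eq_zero] at h1
    exact mul_inv_eq_one.1 h1
  have r1 := hFF (Fin n) {g // g ≠ DV.o} (Fin n) {g // g ≠ DH.o} Ψ (mk X) (hTF n X hX aX tX)
    ⟨mk Y, him.symm⟩
  have r2 := hFF (Fin n) {g // g ≠ DH.o} (Fin n) {g // g ≠ DV.o} Ψ.symm (mk Y) (hTF n Y hY aY tY)
    ⟨mk X, by
      have : Ψ.symm (Ψ (DV.hU (mk X))) = Ψ.symm (DH.hU (mk Y)) := by rw [him]
      rw [MulEquiv.symm_apply_apply] at this
      exact this⟩
  choose f hf using r1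
  choose k hk using r2
  have hfk : ∀ g, f (k g) = g := by
    intro g
    apply injU (β := {g // g ≠ DH.o})
    rw [hf, hk, MulEquiv.apply_symm_apply]
  have hkf : ∀ g, k (f g) = g := by
    intro g
    apply injU (β := {g // g ≠ DV.o})
    rw [hk, hf, MulEquiv.symm_apply_apply]
  refine ⟨{ toFun := f, invFun := k, left_inv := hkf, right_inv := hfk, map_mul' := ?_ }, ?_, ?_⟩
  · intro x y
    apply injU (β := {g // g ≠ DH.o})
    rw [hf, _root_.map_mul, _root_.map_mul, _root_.map_mul, hf, hf]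
  · apply injU (β := {g // g ≠ DH.o})
    change FreeGroup.map Sum.inl (f (mk X)) = _
    rw [hf]
    exact him
  -- the bound
  intro i
  change (f (of i)).norm ≤ _
  rw [← norm_map_inj (Sum.inl : Fin n → Fin n ⊕ {g // g ≠ DH.o}) Sum.inl_injective, hf, hΨ]
  change (α (DV.hU (of i))).norm ≤ _
  have pHn : ∀ g, (DH.pU g).norm ≤ 1 := by
    intro g
    unfold SD.pU
    split_ifs
    · simp
    · simp
  have u1n : ∀ e, (DH.U1 e).norm ≤ 3 := by
    intro e
    unfold SD.U1 SD.m1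
    refine (FreeGroup.norm_mul_le _ _).trans ?_
    have h1 := FreeGroup.norm_mul_le (DH.pU (DH.s₁ e))⁻¹ (DH.hU (of (DH.l₁ e)))
    have h2 : (DH.hU (of (DH.l₁ e))).norm = 1 := by
      unfold SD.hU; simp
    have h3 := pHn (DH.s₁ e)
    have h4 := pHn (DH.t₁ e)
    rw [FreeGroup.norm_inv_eq] at h1
    omega
  have u2n : ∀ e, (DH.U2 e).norm ≤ 2 := by
    intro e
    unfold SD.U2 SD.m2
    refine (FreeGroup.norm_mul_le _ _).trans ?_
    have h3 := pHn (DH.s₂ e)
    have h4 := pHn (DH.t₂ e)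
    rw [FreeGroup.norm_inv_eq]
    omega
  have uan : ∀ e, (DH.Ua e).norm ≤ 3 := by
    intro e
    unfold SD.Ua
    rw [aa_eq]
    refine (FreeGroup.norm_mul_le _ _).trans ?_
    have h3 := pHn (DH.vt e)
    have h4 := pHn (DH.vt (DH.Ch.A e))
    rw [FreeGroup.norm_inv_eq]
    omega
  have ubn : ∀ e, (DH.Ub e).norm ≤ 3 := by
    intro e
    unfold SD.Ub bval
    rcases DH.bd e with ⟨x | x, b⟩ <;> cases b <;>
      simp only [Bool.false_eq_true, if_false, if_true, Sum.elim_inl, Sum.elim_inr,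
        FreeGroup.norm_inv_eq]
    · exact u1n x
    · exact u1n x
    · exact (u2n x).trans (by norm_num)
    · exact (u2n x).trans (by norm_num)
  obtain ⟨W, hW⟩ : ∃ W, W = C * (Fintype.card S.R.E + 1) ^ d := ⟨_, rfl⟩
  have a1n : ∀ e, (a₁ e).norm ≤ 3 * W := by
    intro e
    rw [ha₁]
    refine (norm_lift_le _ 3 ?_ _).trans (Nat.mul_le_mul_left _ (by rw [hW]; exact hw e))
    rintro (y | y)
    · exact uan y
    · exact ubn y
  have step : ∀ (u v : DH.U) (c : ℕ), (u⁻¹ * v).norm ≤ c → v.norm ≤ u.norm + c ∧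
      u.norm ≤ v.norm + c := by
    intro u v c h
    constructor
    · have h1 := FreeGroup.norm_mul_le u (u⁻¹ * v)
      rw [mul_inv_cancel_left] at h1
      omega
    · have h1 := FreeGroup.norm_mul_le v ((u⁻¹ * v)⁻¹)
      rw [FreeGroup.norm_inv_eq, mul_inv_rev, _root_.inv_inv, mul_inv_cancel_left] at h1
      omega
  have bound : ∀ g, (α (DV.pU g)).norm ≤ Fintype.card S.G * (3 * W + 3) := by
    apply conn_bound (fun g => (α (DV.pU g)).norm) (3 * W + 3) S.o (by
      rw [pV0, _root_.map_one, FreeGroup.norm_one])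
      (fun u v => (∃ e, S.s₂ e = u ∧ S.t₂ e = v) ∨ ∃ x, S.vt (S.AV.A x) = u ∧ S.vt x = v)
    · rintro u v (⟨e, rfl, rfl⟩ | ⟨x, rfl, rfl⟩)
      · apply step
        have h1 := hα2 e
        have h2 : DV.U2 e = (DV.pU (S.s₂ e))⁻¹ * DV.pU (S.t₂ e) := by rw [hDV]; rfl
        rw [h2, _root_.map_mul, _root_.map_inv] at h1
        rw [h1]
        exact (u1n e).trans (by omega)
      · have h1 := hα3 x
        have h2 : DV.Ua x = (DV.pU (S.vt x))⁻¹ * DV.pU (S.vt (S.AV.A x)) := by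
          unfold SD.Ua
          rw [aa_eq, hDV]; rfl
        rw [h2, _root_.map_mul, _root_.map_inv] at h1
        have h3 := step _ _ (3 * W + 3) (by rw [h1]; exact (a1n x).trans (by omega))
        exact ⟨h3.2, h3.1⟩
    · intro f hf
      apply S.connV f
      · intro e; exact hf _ _ (Or.inl ⟨e, rfl, rfl⟩)
      · intro x; exact hf _ _ (Or.inr ⟨x, rfl, rfl⟩)
  obtain ⟨e, he⟩ : ∃ e, S.l₁ e = i := by
    obtain ⟨b, hb⟩ := aX i
    rw [← S.hp_read] at hb
    unfold readW at hb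
    rw [List.mem_map] at hb
    obtain ⟨x, -, hx⟩ := hb
    exact ⟨x.1, congrArg Prod.fst hx⟩
  have h1 := hα1 e
  have h2 : DV.U1 e = (DV.pU (S.s₁ e))⁻¹ * DV.hU (of (S.l₁ e)) * DV.pU (S.t₁ e) := by
    rw [hDV]; rfl
  rw [h2, he, _root_.map_mul, _root_.map_mul, _root_.map_inv] at h1
  have h3 : α (DV.hU (of i)) = α (DV.pU (S.s₁ e)) * DH.U2 e * (α (DV.pU (S.t₁ e)))⁻¹ := by
    rw [← h1]; group
  rw [h3]
  have h4 := FreeGroup.norm_mul_le (α (DV.pU (S.s₁ e)) * DH.U2 e) (α (DV.pU (S.t₁ e)))⁻¹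
  have h5 := FreeGroup.norm_mul_le (α (DV.pU (S.s₁ e))) (DH.U2 e)
  rw [FreeGroup.norm_inv_eq] at h4
  have h6 := bound (S.s₁ e)
  have h7 := bound (S.t₁ e)
  have h8 := u2n e
  have h9 : (α (DV.pU (S.s₁ e)) * DH.U2 e * (α (DV.pU (S.t₁ e)))⁻¹).norm ≤
      2 * (Fintype.card S.G * (3 * W + 3)) + 2 := by omega
  refine h9.trans ?_
  obtain ⟨L, hL⟩ : ∃ L, L = X.length + Y.length + 1 := ⟨_, rfl⟩
  have hL1 : 1 ≤ L := by omega
  have hG : Fintype.card S.G ≤ 6 * L := S.card_G.trans (by omega)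
  have hE : Fintype.card S.R.E + 1 ≤ 16 * L := by
    have := S.card_E
    omega
  have hWL : W ≤ C * 16 ^ d * L ^ d := by
    rw [hW, mul_assoc, ← mul_pow]
    exact Nat.mul_le_mul_left _ (Nat.pow_le_pow_left hE d)
  rw [← hL]
  have hLd : 1 ≤ L ^ d := Nat.one_le_pow _ _ hL1
  have hLd' : L ≤ L ^ (d + 1) := by
    rw [pow_succ]; nlinarith
  calc 2 * (Fintype.card S.G * (3 * W + 3)) + 2
      ≤ 2 * ((6 * L) * (3 * (C * 16 ^ d * L ^ d) + 3)) + 2 := by gcongr
    _ = 36 * C * 16 ^ d * L ^ (d + 1) + 36 * L + 2 := by ring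
    _ ≤ 36 * C * 16 ^ d * L ^ (d + 1) + 36 * L ^ (d + 1) + 2 * L ^ (d + 1) := by
        have : 1 ≤ L ^ (d + 1) := Nat.one_le_pow _ _ hL1
        omega
    _ = (36 * C * 16 ^ d + 38) * L ^ (d + 1) := by ring

end Pool.Agent.Helper35_WH
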