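import Pool.Agent.Helper35_WH.Stmt2

/-!
# Module TWOCONN: the links remain connected when a vertical germ is removed
-/

namespace Pool.Agent.Helper35_WH

open FreeGroup

namespace TC68

theorem chain_and {α : Type} {R S : α → α → Prop} {l : List α} (h : List.IsChain R l)
    (h' : List.IsChain S l) : List.IsChain (fun a b => R a b ∧ S a b) l := by
  induction l with
  | nil => exact List.isChain_nil
  | cons x l ih =>
    rw [List.isChain_cons] at h h' ⊢
    exact ⟨fun y hy => ⟨h.1 y hy, h'.1 y hy⟩, ih h.2 h'.2⟩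

/-- neighbours in a list are infixes -/
theorem chain_infix {α : Type} (l : List α) : List.IsChain (fun a b => [a, b] <:+: l) l := by
  suffices H : ∀ (s t : List α), s ++ t = l → List.IsChain (fun a b => [a, b] <:+: l) t from
    H [] l rfl
  intro s t
  induction t generalizing s with
  | nil => intro _; exact List.isChain_nil
  | cons x t ih =>
    intro h
    cases t with
    | nil => exact List.isChain_singleton _
    | cons y t =>
      refine List.isChain_cons_cons.2 ⟨⟨s, t, by simpa using h⟩, ih (s ++ [x]) (by simpa using h)⟩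

theorem isPath_append {V E : Type} (s t : E → V) (L L' : List (E × Bool)) (u w : V) :
    IsPath s t u (L ++ L') w ↔ ∃ v, IsPath s t u L v ∧ IsPath s t v L' w := by
  induction L generalizing u with
  | nil => simp [IsPath]
  | cons x L ih =>
    obtain ⟨e, b⟩ := x
    simp only [List.cons_append, IsPath, ih]
    constructor
    · rintro ⟨h1, v, h2, h3⟩
      exact ⟨v, ⟨h1, h2⟩, h3⟩
    · rintro ⟨v, ⟨h1, h2⟩, h3⟩
      exact ⟨h1, v, h2, h3⟩

section

variable {n : ℕ} {X Y : List (Lt n)} (m : Model n X Y)

/-- directed horizontal edges -/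
def hd (x : m.C.A × Bool) : m.C.Dir := (Sum.inl x.1, x.2)

/-- directed vertical edges -/
def vd (x : m.C.B × Bool) : m.C.Dir := (Sum.inr x.1, x.2)

theorem path_eq : m.path = m.hp.map (hd m) ++ m.vp.map (vd m) := rfl

theorem hpath_chain (L : List (m.C.A × Bool)) (u v : m.C.V) (h : IsPath m.C.s₁ m.C.t₁ u L v)
    (d : m.C.Dir) (hd' : m.C.org d = v) :
    List.IsChain (fun d d' => m.C.org (inv d) = m.C.org d') (L.map (hd m) ++ [d]) ∧
    ∀ g ∈ (L.map (hd m) ++ [d]).head?, m.C.org g = u := by
  induction L generalizing u with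
  | nil =>
    have h' : u = v := h
    subst h'
    simpa using hd'
  | cons x L ih =>
    obtain ⟨e, b⟩ := x
    obtain ⟨h1, h2⟩ := h
    obtain ⟨h3, h4⟩ := ih _ h2
    refine ⟨?_, ?_⟩
    · rw [List.map_cons, List.cons_append, List.isChain_cons]
      refine ⟨fun y hy => ?_, h3⟩
      rw [h4 y hy]
      cases b <;> simp [hd, inv, Cx.org]
    · intro g hg
      simp only [List.map_cons, List.cons_append, List.head?_cons, Option.mem_def,
        Option.some.injEq] at hg
      subst hg
      rw [h1]
      cases b <;> simp [hd, Cx.org]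

theorem vpath_chain (L : List (m.C.B × Bool)) (u v : m.C.V) (h : IsPath m.C.s₂ m.C.t₂ u L v)
    (d : m.C.Dir) (hd' : m.C.org d = v) :
    List.IsChain (fun d d' => m.C.org (inv d) = m.C.org d') (L.map (vd m) ++ [d]) ∧
    ∀ g ∈ (L.map (vd m) ++ [d]).head?, m.C.org g = u := by
  induction L generalizing u with
  | nil =>
    have h' : u = v := h
    subst h'
    simpa using hd'
  | cons x L ih =>
    obtain ⟨e, b⟩ := x
    obtain ⟨h1, h2⟩ := h
    obtain ⟨h3, h4⟩ := ih _ h2
    refine ⟨?_, ?_⟩
    · rw [List.map_cons, List.cons_append, List.isChain_cons]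
      refine ⟨fun y hy => ?_, h3⟩
      rw [h4 y hy]
      cases b <;> simp [vd, inv, Cx.org]
    · intro g hg
      simp only [List.map_cons, List.cons_append, List.head?_cons, Option.mem_def,
        Option.some.injEq] at hg
      subst hg
      rw [h1]
      cases b <;> simp [vd, Cx.org]

/-- the vertex of a corner is also the origin of the vertical germ -/
theorem org_vgerm (κ : m.C.Cor) : m.C.org (m.C.vgerm κ) = m.C.vert κ := by
  obtain ⟨q, a, c⟩ := κ
  cases a <;> cases c <;>
    simp [Cx.vgerm, Cx.vert, Cx.hgerm, Cx.org, Cx.vside, Cx.hside, m.C.h1, m.C.h2, m.C.h3, m.C.h4]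

theorem pos_org_inv_inl (e : m.C.A) (b : Bool) :
    m.pos (m.C.org (.inl e, !b)) =
      (if b then (m.eX (of (m.C.l₁ e)))⁻¹ else m.eX (of (m.C.l₁ e))) * m.pos (m.C.org (.inl e, b)) := by
  cases b <;> simp [Cx.org, m.pos₁]

/-- vertical edges with the same label and the same origin -/
theorem inj_v (e e' : m.C.B) (b : Bool) (h : m.C.l₂ e = m.C.l₂ e')
    (h' : m.C.org (.inr e, b) = m.C.org (.inr e', b)) : e = e' := by
  cases b
  · apply m.inj₂ _ _ h
    apply m.pos_inj
    have h1 : m.C.t₂ e = m.C.t₂ e' := by simpa [Cx.org] using h'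
    have h2 := m.pos₂ e
    rw [h1, m.pos₂ e', h] at h2
    exact (mul_right_cancel h2).symm
  · exact m.inj₂ _ _ h (by simpa [Cx.org] using h')

/-- a square is determined by a corner -/
theorem inj_cor (q q' : m.C.S) (a c : Bool) (h : m.C.hside (q, c) = m.C.hside (q', c))
    (h' : m.C.vside (q, a) = m.C.vside (q', a)) : q = q' := by
  have l1 : m.C.l₁ (m.C.bot q) = m.C.l₁ (m.C.bot q') := by
    have := congrArg m.C.l₁ h
    cases c
    · simpa [Cx.hside] using this
    · simpa [Cx.hside, ← m.C.h5] using this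
  have l2 : m.C.l₂ (m.C.lef q) = m.C.l₂ (m.C.lef q') := by
    have := congrArg m.C.l₂ h'
    cases a
    · simpa [Cx.vside] using this
    · simpa [Cx.vside, ← m.C.h6] using this
  have hv : m.pos (m.C.vert (q, a, c)) = m.pos (m.C.vert (q', a, c)) := by
    simp only [Cx.vert, Cx.hgerm]
    rw [h]
  have key : ∀ p : m.C.S, m.pos (m.C.vert (p, a, c)) =
      (if a then (m.eX (of (m.C.l₁ (m.C.bot p))))⁻¹ else 1) * m.pos (m.C.s₁ (m.C.bot p)) *
        (if c then m.eY (of (m.C.l₂ (m.C.lef p))) else 1) := by
    intro p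
    cases a <;> cases c <;>
      simp only [Cx.vert, Cx.hgerm, Cx.org, Cx.hside, Bool.false_eq_true, if_false, if_true,
        Bool.not_false, Bool.not_true, one_mul, mul_one]
    · rw [m.C.h3, m.pos₂, m.C.h1]
    · rw [m.pos₁]
    · rw [m.pos₁, m.C.h3, m.pos₂, m.C.h1, m.C.h5, mul_assoc]
  have hs : m.C.s₁ (m.C.bot q) = m.C.s₁ (m.C.bot q') := by
    apply m.pos_inj
    rw [key q, key q', l1, l2] at hv
    exact mul_left_cancel (mul_right_cancel hv)
  have hb := m.inj₁ _ _ l1 hs
  have hl := m.inj₂ _ _ l2 (by rw [← m.C.h1, ← m.C.h1, hs])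
  exact m.injS _ _ hb hl

end

end TC68

open TC68

theorem twoConn (h3 : ModelForestStatement) : TwoConnStatement := by
  intro n X Y m tm hX hY hX0 hY0 htY w e₀ ζ he₀ hcor hturn
  classical
  -- horizontal colourings
  have hfor : ∀ e₀ : m.C.A, ∃ c : m.C.V → Bool, ∀ e, c (m.C.s₁ e) ≠ c (m.C.t₁ e) ↔ e = e₀ :=
    h3 n Y X m.T
  choose c hc using hfor
  have hcb : ∀ (e₁ e : m.C.A) (b : Bool),
      c e₁ (m.C.org (.inl e, b)) ≠ c e₁ (m.C.org (.inl e, !b)) ↔ e = e₁ := by
    intro e₁ e b
    cases b
    · simpa [Cx.org, ne_comm] using hc e₁ e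
    · simpa [Cx.org] using hc e₁ e
  have hceq : ∀ (e₁ e : m.C.A) (b : Bool), e ≠ e₁ →
      c e₁ (m.C.org (.inl e, !b)) = c e₁ (m.C.org (.inl e, b)) := by
    intro e₁ e b h
    by_contra h'
    exact h ((hcb e₁ e b).1 (Ne.symm h'))
  have hloop : ∀ (e : m.C.A) (b : Bool), m.C.org (.inl e, b) ≠ m.C.org (.inl e, !b) := by
    intro e b h
    exact ((hcb e e b).2 rfl) (congrArg _ h)
  -- the side function
  obtain ⟨side, hside⟩ : ∃ side : m.C.V → Bool, ∀ v, side v = true ↔
      ∃ d : m.C.A × Bool, m.C.org (.inl d.1, d.2) = w ∧ ζ (.inl d.1, d.2) = true ∧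
        c d.1 v ≠ c d.1 w := ⟨fun v => decide _, fun v => decide_eq_true_iff⟩
  have side_edge : ∀ (e : m.C.A) (b : Bool), m.C.org (.inl e, b) ≠ w →
      m.C.org (.inl e, !b) ≠ w → side (m.C.org (.inl e, b)) = side (m.C.org (.inl e, !b)) := by
    intro e b h h'
    rw [Bool.eq_iff_iff, hside, hside]
    refine exists_congr fun d => ?_
    constructor
    · rintro ⟨h1, h2, h3⟩
      refine ⟨h1, h2, ?_⟩
      rw [hceq]
      · exact h3
      · rintro rfl
        rcases Bool.eq_or_eq_not b d.2 with h4 | h4
        · rw [← h4] at h1; exact h h1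
        · rw [h4, Bool.not_not] at h'; exact h' h1
    · rintro ⟨h1, h2, h3⟩
      refine ⟨h1, h2, ?_⟩
      rw [hceq] at h3
      · exact h3
      · rintro rfl
        rcases Bool.eq_or_eq_not b d.2 with h4 | h4
        · rw [← h4] at h1; exact h h1
        · rw [h4, Bool.not_not] at h'; exact h' h1
  have side_w : ∀ (e : m.C.A) (b : Bool), m.C.org (.inl e, b) = w →
      side (m.C.org (.inl e, !b)) = ζ (.inl e, b) := by
    intro e b h
    rw [Bool.eq_iff_iff, hside]
    constructor
    · rintro ⟨d, h1, h2, h3⟩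
      by_cases h4 : e = d.1
      · subst h4
        rcases Bool.eq_or_eq_not b d.2 with h5 | h5
        · rw [h5]; exact h2
        · exfalso
          rw [h5] at h
          exact hloop d.1 d.2 (h1.trans h.symm)
      · exfalso
        rw [hceq _ _ _ h4, h] at h3
        exact h3 rfl
    · intro h2
      refine ⟨(e, b), h, h2, ?_⟩
      rw [← h]
      exact ((hcb e e b).2 rfl).symm
  -- the value of a germ
  obtain ⟨val, hval⟩ : ∃ val : m.C.Dir → Bool, ∀ g, val g = if m.C.org g = w then ζ g else
    side (m.C.org g) := ⟨_, fun _ => rfl⟩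
  have val_h : ∀ (e : m.C.A) (b : Bool), val (.inl e, b) = val (.inl e, !b) := by
    intro e b
    rw [hval, hval]
    by_cases h : m.C.org (.inl e, b) = w
    · have h' : m.C.org (.inl e, !b) ≠ w := fun h2 => hloop e b (h.trans h2.symm)
      rw [if_pos h, if_neg h', side_w e b h]
    · rw [if_neg h]
      by_cases h' : m.C.org (.inl e, !b) = w
      · rw [if_pos h']
        have := side_w e (!b) h'
        rw [Bool.not_not] at this
        exact this
      · rw [if_neg h', side_edge e b h h']
  have val_cor : ∀ κ, m.C.vgerm κ ≠ (.inr e₀.1, e₀.2) → val (m.C.hgerm κ) = val (m.C.vgerm κ) := by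
    intro κ h
    rw [hval, hval, org_vgerm]
    change (if m.C.vert κ = w then _ else side (m.C.vert κ)) = _
    by_cases h' : m.C.vert κ = w
    · rw [if_pos h', if_pos h']; exact hcor κ h' h
    · rw [if_neg h', if_neg h']
  -- letters
  obtain ⟨z, hz⟩ : ∃ z : Lt n, z = (m.C.l₂ e₀.1, e₀.2) := ⟨_, rfl⟩
  have hne : ∀ (e : m.C.B) (b : Bool), (m.C.l₂ e, b) ≠ z →
      ((Sum.inr e, b) : m.C.Dir) ≠ (.inr e₀.1, e₀.2) := by
    intro e b h h'
    apply h
    simp only [Prod.mk.injEq, Sum.inr.injEq] at h'
    rw [hz, h'.1, h'.2]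
  have hs : ∀ g : Lt n, ∃ σ : Bool, g ≠ z → ∀ e, m.C.l₂ e = g.1 → val (.inr e, g.2) = σ := by
    intro g
    by_cases hg : g = z
    · exact ⟨false, fun h => absurd hg h⟩
    have h1 := tm.tr₂ (fun e => if m.C.l₂ e = g.1 then val (.inr e, g.2) else false) (by
      intro q
      rw [← m.C.h6]
      by_cases h : m.C.l₂ (m.C.lef q) = g.1
      · rw [if_pos h, if_pos h]
        have hl := val_cor (q, false, !g.2) (by
          have := hne (m.C.lef q) g.2 (by rw [h]; exact hg)
          simpa [Cx.vgerm, Cx.vside] using this)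
        have hr := val_cor (q, true, !g.2) (by
          have := hne (m.C.rig q) g.2 (by rw [← m.C.h6, h]; exact hg)
          simpa [Cx.vgerm, Cx.vside] using this)
        simp only [Cx.vgerm, Cx.vside, Cx.hgerm, Bool.not_not, Bool.false_eq_true, if_false,
          if_true, Bool.not_false, Bool.not_true] at hl hr
        rw [← hl, ← hr, val_h]
        rfl
      · rw [if_neg h, if_neg h])
    by_cases h2 : ∃ e, m.C.l₂ e = g.1
    · obtain ⟨e, he⟩ := h2
      refine ⟨val (.inr e, g.2), fun _ e' he' => ?_⟩
      have := h1 e' e (he'.trans he.symm)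
      rwa [if_pos he, if_pos he'] at this
    · exact ⟨false, fun _ e he => absurd ⟨e, he⟩ h2⟩
  choose s hs using hs
  have hs' : ∀ (e : m.C.B) (b : Bool), (m.C.l₂ e, b) ≠ z → val (.inr e, b) = s (m.C.l₂ e, b) :=
    fun e b h => hs (m.C.l₂ e, b) h e rfl
  -- the relation between neighbours on the path
  obtain ⟨Rl, hRl⟩ : ∃ Rl : m.C.Dir → m.C.Dir → Prop, ∀ d d', Rl d d' ↔
      (inv d ≠ (.inr e₀.1, e₀.2) → d' ≠ (.inr e₀.1, e₀.2) → val (inv d) = val d') :=
    ⟨_, fun _ _ => Iff.rfl⟩
  have hRl' : ∀ d d', [d, d'] <:+: m.path ++ m.path → m.C.org (inv d) = m.C.org d' → Rl d d' := by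
    intro d d' h h'
    rw [hRl]
    intro h1 h2
    rw [hval, hval, h']
    by_cases h3 : m.C.org d' = w
    · rw [if_pos h3, if_pos h3]
      refine hturn (inv d) d' ?_ (h'.trans h3) h3 h1 h2
      unfold Model.Turn
      rw [inv_inv]
      exact h
    · rw [if_neg h3, if_neg h3]
  have hp0 : m.hp ≠ [] := by
    intro h
    apply hX0
    rw [← m.hp_read, h]; rfl
  have vp0 : m.vp ≠ [] := by
    intro h
    apply hY0
    rw [← m.vp_read, h]; rfl
  obtain ⟨x0, hp', hhp⟩ := List.exists_cons_of_ne_nil hp0
  obtain ⟨y0, vp', hvp⟩ := List.exists_cons_of_ne_nil vp0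
  have orgx0 : m.C.org (hd m x0) = m.w0 := by
    have := m.hp_path
    rw [hhp] at this
    obtain ⟨e, b⟩ := x0
    rw [this.1]
    cases b <;> simp [hd, Cx.org]
  have orgy0 : m.C.org (vd m y0) = m.w1 := by
    have := m.vp_path
    rw [hvp] at this
    obtain ⟨e, b⟩ := y0
    rw [this.1]
    cases b <;> simp [vd, Cx.org]
  have big := chain_infix (m.path ++ m.path)
  have eq1 : m.path ++ m.path = (m.hp.map (hd m) ++ [vd m y0]) ++
      (vp'.map (vd m) ++ (m.hp.map (hd m) ++ m.vp.map (vd m))) := by
    rw [path_eq]; simp [hvp]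
  have eq2 : m.path ++ m.path = m.hp.map (hd m) ++ ((m.vp.map (vd m) ++ [hd m x0]) ++
      (hp'.map (hd m) ++ m.vp.map (vd m))) := by
    rw [path_eq]; simp [hhp]
  have chH : List.IsChain Rl (m.hp.map (hd m) ++ [vd m y0]) := by
    have h1 := (hpath_chain m m.hp _ _ m.hp_path (vd m y0) orgy0).1
    have h2 : List.IsChain (fun a b => [a, b] <:+: m.path ++ m.path)
        (m.hp.map (hd m) ++ [vd m y0]) := by
      have := big
      rw [eq1] at this ⊢
      exact this.left_of_append
    exact (chain_and h1 h2).imp fun a b h => hRl' a b h.2 h.1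
  have chV : List.IsChain Rl (m.vp.map (vd m) ++ [hd m x0]) := by
    have h1 := (vpath_chain m m.vp _ _ m.vp_path (hd m x0) orgx0).1
    have h2 : List.IsChain (fun a b => [a, b] <:+: m.path ++ m.path)
        (m.vp.map (vd m) ++ [hd m x0]) := by
      have := big
      rw [eq2] at this ⊢
      exact this.right_of_append.left_of_append
    exact (chain_and h1 h2).imp fun a b h => hRl' a b h.2 h.1
  -- along the horizontal part
  have valH : ∀ (L : List (m.C.A × Bool)) (x : m.C.A × Bool),
      List.IsChain Rl ((x :: L).map (hd m) ++ [vd m y0]) → vd m y0 ≠ (.inr e₀.1, e₀.2) →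
      val (hd m x) = val (vd m y0) := by
    intro L
    induction L with
    | nil =>
      intro x h h'
      have h1 : Rl (hd m x) (vd m y0) := by simpa using h
      rw [hRl] at h1
      rw [← h1 (by simp [hd, inv]) h']
      exact val_h _ _
    | cons x' L ih =>
      intro x h h'
      have h1 : Rl (hd m x) (hd m x') ∧ List.IsChain Rl ((x' :: L).map (hd m) ++ [vd m y0]) := by
        simpa using h
      rw [← ih x' h1.2 h']
      have h2 := (hRl _ _).1 h1.1 (by simp [hd, inv]) (by simp [hd])
      rw [← h2]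
      exact val_h _ _
  -- reading the vertical part
  have readV : ∀ (L : List (m.C.B × Bool)) (a : Bool),
      (∀ g ∈ (L.map (vd m) ++ [hd m x0]).head?, g ≠ (.inr e₀.1, e₀.2) → a = val g) →
      List.IsChain Rl (L.map (vd m) ++ [hd m x0]) →
      ∃ k, SW z s a (readW m.C.l₂ L) (val (hd m x0)) k := by
    intro L
    induction L with
    | nil =>
      intro a h _
      have : a = val (hd m x0) := h (hd m x0) (by simp) (by simp [hd])
      rw [← this]
      exact ⟨0, SW.nil a⟩
    | cons x L ih =>
      intro a ha h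
      rw [List.map_cons, List.cons_append, List.isChain_cons] at h
      obtain ⟨a', ha', ha''⟩ : ∃ a' : Bool, (inv (vd m x) ≠ (.inr e₀.1, e₀.2) →
          a' = val (inv (vd m x))) ∧ ∀ g ∈ (L.map (vd m) ++ [hd m x0]).head?,
          g ≠ (.inr e₀.1, e₀.2) → a' = val g := by
        by_cases h1 : inv (vd m x) = (.inr e₀.1, e₀.2)
        · cases hh : (L.map (vd m) ++ [hd m x0]).head? with
          | none => exact ⟨false, fun h2 => absurd h1 h2, fun g hg => by simp at hg⟩
          | some g0 =>
            refine ⟨val g0, fun h2 => absurd h1 h2, fun g hg _ => ?_⟩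
            simp only [Option.mem_def, Option.some.injEq] at hg
            rw [hg]
        · exact ⟨val (inv (vd m x)), fun _ => rfl, fun g hg h2 => (hRl _ _).1 (h.1 g hg) h1 h2⟩
      obtain ⟨k, hk⟩ := ih a' ha'' h.2
      refine ⟨k + trav z s a (m.C.l₂ x.1, x.2) a', SW.cons _ _ a a' _ k ?_ ?_ hk⟩
      · intro h1
        rw [ha (vd m x) (by simp) (hne _ _ h1)]
        exact hs' _ _ h1
      · intro h1
        rw [ha' (hne _ _ h1)]
        exact hs' _ _ h1
  obtain ⟨k, hk⟩ := readV m.vp (val (hd m x0)) (by
    intro g hg h1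
    rw [hvp] at hg
    simp only [List.map_cons, List.cons_append, List.head?_cons, Option.mem_def,
      Option.some.injEq] at hg
    rw [← hg] at h1 ⊢
    rw [hhp] at chH
    exact valH _ _ chH h1) chV
  rw [m.vp_read] at hk
  have hconst : ∀ g g', g ≠ z → g' ≠ z → s g = s g' := by
    intro g g' hg hg'
    by_contra h
    exact htY ⟨z, s, _, k, ⟨g, g', hg, hg', h⟩, hk⟩
  obtain ⟨s0, hs0⟩ : ∃ s0, s0 = s (inv z) := ⟨_, rfl⟩
  have hs0' : ∀ g, g ≠ z → s g = s0 := fun g hg => by rw [hs0]; exact hconst _ _ hg (inv_ne z)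
  have hval0 : ∀ (e : m.C.B) (b : Bool), (m.C.l₂ e, b) ≠ z → val (.inr e, b) = s0 := fun e b h => by
    rw [hs' e b h, hs0' _ h]
  -- the end points of the path have value `s0`
  have hz1 : ∀ (L : List (Lt n)) (a b : Bool) (k : ℕ), SW z s a L b k → L ≠ [] →
      (∀ g ∈ L.head?, g ≠ z → a = s0) ∧ (∀ g ∈ L.getLast?, inv g ≠ z → b = s0) := by
    intro L a b k h
    induction h with
    | nil a => intro h; exact absurd rfl h
    | cons g L a a' b k h1 h2 h3 ih =>
      intro _
      refine ⟨?_, ?_⟩
      · intro g' hg' h4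
        simp only [List.head?_cons, Option.mem_def, Option.some.injEq] at hg'
        subst hg'
        rw [h1 h4, hs0' _ h4]
      · intro g' hg' h4
        rcases L with _ | ⟨y, L⟩
        · simp only [List.getLast?_singleton, Option.mem_def, Option.some.injEq] at hg'
          subst hg'
          cases h3
          rw [h2 h4, hs0' _ h4]
        · refine (ih (by simp)).2 g' ?_ h4
          rwa [List.getLast?_cons_cons] at hg'
  have hzend : val (hd m x0) = s0 := by
    obtain ⟨p, q⟩ := hz1 _ _ _ _ hk hY0
    by_contra hcon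
    have hh : Y.head? = some z := by
      cases hY' : Y with
      | nil => exact absurd hY' hY0
      | cons g L =>
        rw [List.head?_cons]
        by_contra h
        exact hcon (p g (by rw [hY']; rfl) (fun h2 => h (by rw [h2])))
    have hl : Y.getLast? = some (inv z) := by
      rw [List.getLast?_eq_getLast_of_ne_nil hY0]
      by_contra h
      refine hcon (q (Y.getLast hY0) (by rw [List.getLast?_eq_getLast_of_ne_nil hY0]; rfl) ?_)
      intro h2
      apply h
      rw [← h2, inv_inv]
    have h3 := hY.2 (inv z) (by rw [hl]; rfl) z (by rw [hh]; rfl) rfl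
    simp [inv] at h3
  have hw0 : m.w0 ≠ w → side m.w0 = s0 := by
    intro h
    rw [← hzend, hval, orgx0, if_neg h]
  have hw1 : m.w1 ≠ w → side m.w1 = s0 := by
    intro h
    have h1 : vd m y0 ≠ (.inr e₀.1, e₀.2) := by
      intro h2
      apply h
      rw [← orgy0, h2, he₀]
    have h2 := valH hp' x0 (by rw [← hhp]; exact chH) h1
    rw [hzend, hval (vd m y0), orgy0, if_neg h] at h2
    exact h2.symm
  have con' : ∀ f : m.C.V → Bool,
      (∀ e, ∃ b, f (m.C.org (.inl e, b)) = f (m.C.org (.inl e, !b))) → ∀ u u', f u = f u' := by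
    intro f hf
    apply tm.con₁ f
    intro e
    obtain ⟨b, hb⟩ := hf e
    cases b
    · simpa [Cx.org] using hb.symm
    · simpa [Cx.org] using hb
  have redX : List.IsChain (fun d d' : m.C.A × Bool => m.C.l₁ d.1 = m.C.l₁ d'.1 → d.2 = d'.2)
      m.hp := by
    have h1 := hX.1
    unfold FreeGroup.IsReduced at h1
    rw [← m.hp_read] at h1
    unfold readW at h1
    rw [List.isChain_map] at h1
    exact h1
  have main : ∀ g, m.C.org g = w → g ≠ (.inr e₀.1, e₀.2) → ζ g = s0 := by
    rintro ⟨e | e, b⟩ hg hg'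
    · -- horizontal germs
      by_contra hcon
      obtain ⟨D, hD⟩ : ∃ D : Finset (m.C.A × Bool), ∀ x, x ∈ D ↔
        (c x.1 (m.C.org (.inl x.1, !x.2)) ≠ c x.1 w ∧ m.C.org (.inl x.1, !x.2) ≠ w ∧
          side (m.C.org (.inl x.1, !x.2)) ≠ s0) :=
        ⟨Finset.univ.filter fun x : m.C.A × Bool =>
          (c x.1 (m.C.org (.inl x.1, !x.2)) ≠ c x.1 w ∧ m.C.org (.inl x.1, !x.2) ≠ w ∧
            side (m.C.org (.inl x.1, !x.2)) ≠ s0), fun x => by rw [Finset.mem_filter]; simp⟩
      have hDne : D.Nonempty := ⟨(e, b), by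
        rw [hD]
        refine ⟨?_, ?_, ?_⟩
        · rw [← hg]; exact ((hcb e e b).2 rfl).symm
        · rw [← hg]; exact (hloop e b).symm
        · rw [side_w e b hg]; exact hcon⟩
      obtain ⟨⟨e', b'⟩, hmem, hmin⟩ := D.exists_min_image
        (fun x => (Finset.univ.filter fun u => c x.1 u ≠ c x.1 w).card) hDne
      rw [hD] at hmem
      obtain ⟨m1, m2, m3⟩ := hmem
      dsimp only at m1 m2 m3
      obtain ⟨v, hv⟩ : ∃ v, v = m.C.org (.inl e', !b') := ⟨_, rfl⟩
      rw [← hv] at m1 m2 m3
      have k5 : c e' (m.C.org (.inl e', b')) = c e' w := by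
        have h1 := (hcb e' e' b').2 rfl
        rw [← hv] at h1
        rcases Bool.eq_or_eq_not (c e' (m.C.org (.inl e', b'))) (c e' w) with h2 | h2
        · exact h2
        · exfalso
          rcases Bool.eq_or_eq_not (c e' v) (c e' w) with h3 | h3
          · exact m1 h3
          · exact h1 (by rw [h2, h3])
      have leaf : ∀ (e₂ : m.C.A) (b₂ : Bool), m.C.org (.inl e₂, b₂) = v → e₂ = e' := by
        intro e₂ b₂ h2
        by_contra hne2
        have k1 : c e' (m.C.org (.inl e₂, !b₂)) = c e' v := by rw [hceq e' e₂ b₂ hne2, h2]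
        have k2 : m.C.org (.inl e₂, !b₂) ≠ w := by
          intro h; rw [h] at k1; exact m1 k1.symm
        have k3 : side (m.C.org (.inl e₂, !b₂)) = side v := by
          rw [← h2]; exact (side_edge e₂ b₂ (by rw [h2]; exact m2) k2).symm
        have k4 : c e₂ (m.C.org (.inl e', b')) = c e₂ v := by
          rw [hv, hceq e₂ e' b' (Ne.symm hne2)]
        have k6 : c e₂ v = c e₂ w := by
          by_contra h
          have h1 := con' (fun x => decide (c e' x = c e' w) && decide (c e₂ x = c e₂ w)) (by
            intro e₃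
            by_cases h4 : e₃ = e'
            · subst h4
              refine ⟨b', ?_⟩
              rw [← hv, k4]
              simp [h]
            · by_cases h5 : e₃ = e₂
              · subst h5
                refine ⟨b₂, ?_⟩
                rw [h2, k1]
                simp [m1]
              · exact ⟨true, by rw [hceq e' e₃ true h4, hceq e₂ e₃ true h5]⟩) w v
          simp [m1] at h1
        have k7 : c e₂ (m.C.org (.inl e₂, !b₂)) ≠ c e₂ w := by
          rw [← k6, ← h2]
          exact ((hcb e₂ e₂ b₂).2 rfl).symm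
        have h1 := hmin (e₂, b₂) (by
          rw [hD]
          exact ⟨k7, k2, by rw [k3]; exact m3⟩)
        dsimp only at h1
        refine absurd h1 (not_le.2 (Finset.card_lt_card ?_))
        rw [Finset.ssubset_iff_of_subset]
        · refine ⟨v, by simpa using m1, by simpa using k6⟩
        · intro x hx
          rw [Finset.mem_filter] at hx ⊢
          refine ⟨Finset.mem_univ _, fun h6 => ?_⟩
          have h1 := con' (fun x => decide (c e₂ x ≠ c e₂ w) && decide (c e' x = c e' w)) (by
            intro e₃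
            by_cases h4 : e₃ = e'
            · subst h4
              refine ⟨b', ?_⟩
              rw [← hv, k4]
              simp [k6]
            · by_cases h5 : e₃ = e₂
              · subst h5
                refine ⟨b₂, ?_⟩
                rw [h2, k1]
                simp [m1]
              · exact ⟨true, by rw [hceq e' e₃ true h4, hceq e₂ e₃ true h5]⟩) x v
          simp [m1, hx.2, h6] at h1
      have nothp : ∀ b₁, (e', b₁) ∉ m.hp := by
        intro b₁ hb₁
        obtain ⟨L1, L2, hL⟩ := List.append_of_mem hb₁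
        have hpa := m.hp_path
        rw [hL, isPath_append] at hpa
        obtain ⟨p, hp1, hp2, hp3⟩ := hpa
        rw [hL] at redX
        rcases Bool.eq_or_eq_not b₁ b' with hbb | hbb
        · subst hbb
          have hv' : (if b₁ then m.C.t₁ e' else m.C.s₁ e') = v := by
            rw [hv]; cases b₁ <;> simp [Cx.org]
          rw [hv'] at hp3
          rcases L2 with _ | ⟨⟨e₂, b₂⟩, L2⟩
          · have h7 : v = m.w1 := hp3
            rw [h7] at m2 m3
            exact m3 (hw1 m2)
          · have h8 := (List.isChain_cons_cons.1 redX.right_of_append).1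
            dsimp only at h8
            have h9 : m.C.org (.inl e₂, b₂) = v := by
              rw [hp3.1]; cases b₂ <;> simp [Cx.org]
            have h10 := leaf _ _ h9
            subst h10
            have h11 := h8 rfl
            subst h11
            rw [hv] at h9
            exact hloop _ _ h9
        · have hv' : p = v := by
            rw [hp2, hv, hbb]; cases b' <;> simp [Cx.org]
          subst hv'
          rcases List.eq_nil_or_concat L1 with h7 | ⟨L1', d', h7⟩
          · subst h7
            have h7 : m.w0 = p := hp1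
            rw [← h7] at m2 m3
            exact m3 (hw0 m2)
          · rw [List.concat_eq_append] at h7
            subst h7
            rw [List.append_assoc, List.singleton_append] at redX
            have h8 := (List.isChain_cons_cons.1 redX.right_of_append).1
            obtain ⟨e₂, b₂⟩ := d'
            dsimp only at h8
            rw [isPath_append] at hp1
            obtain ⟨p', hp4, hp5, hp6⟩ := hp1
            have hp6' : (if b₂ then m.C.t₁ e₂ else m.C.s₁ e₂) = p := hp6
            have h9 : m.C.org (.inl e₂, !b₂) = p := by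
              rw [← hp6']; cases b₂ <;> simp [Cx.org]
            have h10 := leaf _ _ h9
            subst h10
            have h11 := h8 rfl
            subst h11
            rw [hv, hbb, Bool.not_not] at h9
            exact hloop _ _ h9
      have h2 := tm.f₁ e' nothp
      obtain ⟨⟨⟨q, c1⟩, hx⟩, ⟨⟨q', c1'⟩, hx'⟩, hne3⟩ := Fintype.exists_pair_of_one_lt_card h2
      have cl : ∀ (q : m.C.S) (c1 : Bool), m.C.hside (q, c1) = e' →
          m.C.org (.inr (m.C.vside (q, b')), !c1) = v ∧
          (m.C.l₂ (m.C.vside (q, b')), !c1) = z := by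
        intro q c1 hx
        have h3 : m.C.org (.inr (m.C.vside (q, b')), !c1) = v := by
          have h4 := org_vgerm m (q, b', c1)
          have h5 : m.C.vert (q, b', c1) = v := by
            simp only [Cx.vert, Cx.hgerm]
            rw [hx, hv]
          rw [h5] at h4
          exact h4
        refine ⟨h3, ?_⟩
        by_contra h4
        have h5 := hval0 _ _ h4
        rw [hval, h3, if_neg m2] at h5
        exact m3 h5
      obtain ⟨a1, a2⟩ := cl q c1 hx
      obtain ⟨a3, a4⟩ := cl q' c1' hx'
      have a5 := a2.trans a4.symm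
      simp only [Prod.mk.injEq, Bool.not_inj_iff] at a5
      obtain ⟨a6, a7⟩ := a5
      subst a7
      have a8 := inj_v m _ _ (!c1) a6 (a1.trans a3.symm)
      have a9 := inj_cor m q q' b' c1 (hx.trans hx'.symm) a8
      subst a9
      exact hne3 rfl
    · -- vertical germs
      have h1 : (m.C.l₂ e, b) ≠ z := by
        intro h
        rw [hz] at h
        simp only [Prod.mk.injEq] at h
        obtain ⟨h2, rfl⟩ := h
        apply hg'
        rw [inj_v m e e₀.1 e₀.2 h2 (hg.trans he₀.symm)]
      have h2 := hval0 e b h1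
      rw [hval, if_pos hg] at h2
      exact h2
  intro g g' hg hg' h h'
  rw [main g hg h, main g' hg' h']

end Pool.Agent.Helper35_WH
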